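import Mathlib
import Pool.Agent.W7h60.QR.Ring

set_option autoImplicit false
set_option linter.unusedSectionVars false

/-! Actions on abelian groups filtered by sections of modules with few generators. -/

namespace Pool.Agent.U181.SC

open Pool.Agent.Helper156.OF Pool.Agent.TH271.CU Pool.Agent.W7h60.QQ Pool.Agent.W7h60.QR

universe u v w

section gen

variable {G : Type} [Group G] {M : Type v} [AddCommGroup M]

/-- the restriction to an invariant subgroup -/
def resH (ρ : G →* AddMonoid.End M) (T : AddSubgroup M) (h : ∀ g, ∀ v ∈ T, ρ g v ∈ T) :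
    G →* AddMonoid.End T where
  toFun g :=
    { toFun := fun v => ⟨ρ g v, h g v v.2⟩
      map_zero' := Subtype.ext (map_zero (ρ g))
      map_add' := fun a b => Subtype.ext (map_add (ρ g) (a : M) b) }
  map_one' := by
    ext v
    show ρ 1 (v : M) = v
    rw [map_one]
    rfl
  map_mul' g g' := by
    ext v
    show ρ (g * g') (v : M) = ρ g (ρ g' v)
    rw [map_mul]
    rfl

/-- the action on the quotient by an invariant subgroup -/
def quoH (ρ : G →* AddMonoid.End M) (S : AddSubgroup M) (h : ∀ g, ∀ v ∈ S, ρ g v ∈ S) :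
    G →* AddMonoid.End (M ⧸ S) where
  toFun g := QuotientAddGroup.map S S (ρ g : M →+ M) (fun v hv => h g v hv)
  map_one' := by
    apply AddMonoidHom.ext
    intro v
    obtain ⟨v, rfl⟩ := QuotientAddGroup.mk_surjective v
    show (QuotientAddGroup.mk (ρ 1 v) : M ⧸ S) = QuotientAddGroup.mk v
    rw [map_one]
    rfl
  map_mul' g g' := by
    apply AddMonoidHom.ext
    intro v
    obtain ⟨v, rfl⟩ := QuotientAddGroup.mk_surjective v
    show (QuotientAddGroup.mk (ρ (g * g') v) : M ⧸ S) = QuotientAddGroup.mk (ρ g (ρ g' v))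
    rw [map_mul]
    rfl

end gen

section act

variable {α : Type} [DecidableEq α] [Fintype α] {M : Type v} [AddCommGroup M]

theorem N_app (ρ : MulAut (FreeGroup α) →* AddMonoid.End M) (x a : Lt α) (v : M) :
    N ρ x a v = ρ (eAut x a) v - v := rfl

theorem resN (ρ : MulAut (FreeGroup α) →* AddMonoid.End M) (T : AddSubgroup M)
    (h : ∀ g, ∀ v ∈ T, ρ g v ∈ T) (x a : Lt α) (v : T) :
    ((N (resH ρ T h) x a v : T) : M) = N ρ x a v := rfl

theorem quoN (ρ : MulAut (FreeGroup α) →* AddMonoid.End M) (S : AddSubgroup M)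
    (h : ∀ g, ∀ v ∈ S, ρ g v ∈ S) (x a : Lt α) (v : M) :
    N (quoH ρ S h) x a (QuotientAddGroup.mk v : M ⧸ S) = QuotientAddGroup.mk (N ρ x a v) := rfl

theorem N_mem (ρ : MulAut (FreeGroup α) →* AddMonoid.End M) {T : AddSubgroup M}
    (h : ∀ g, ∀ v ∈ T, ρ g v ∈ T) (x a : Lt α) {v : M} (hv : v ∈ T) : N ρ x a v ∈ T :=
  T.sub_mem (h _ v hv) hv

/-- products of two disjoint `N`'s map `T` to `S` -/
def Kl (ρ : MulAut (FreeGroup α) →* AddMonoid.End M) (S T : AddSubgroup M) : Prop :=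
  ∀ x a y b : Lt α, Dj x a y b → ∀ v ∈ T, N ρ x a (N ρ y b v) ∈ S

/-- the ascending case -/
theorem asc (h7 : 7 ≤ Fintype.card α) (ρ : MulAut (FreeGroup α) →* AddMonoid.End M)
    (H : ∀ S : AddSubgroup M, (∀ g, ∀ v ∈ S, ρ g v ∈ S) → S ≠ ⊤ →
      ∃ T : AddSubgroup M, (∀ g, ∀ v ∈ T, ρ g v ∈ T) ∧ S < T ∧ Kl ρ S T) : DRel ρ := by
  let S : AddSubgroup M :=
    { carrier := {v | ∀ g, ∀ x a y b : Lt α, Dj x a y b → N ρ x a (N ρ y b (ρ g v)) = 0}
      zero_mem' := fun g x a y b _ => by simp only [map_zero]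
      add_mem' := fun {v w} hv hw g x a y b h => by
        simp only [map_add, hv g x a y b h, hw g x a y b h, add_zero]
      neg_mem' := fun {v} hv g x a y b h => by
        simp only [map_neg, hv g x a y b h, neg_zero] }
  have hS : ∀ g, ∀ v ∈ S, ρ g v ∈ S := by
    intro g v hv g' x a y b h
    have h1 := hv (g' * g) x a y b h
    rw [map_mul] at h1
    exact h1
  have htop : S = ⊤ := by
    by_contra hne
    obtain ⟨T, hT, hlt, hk⟩ := H S hS hne
    have D : DRel (resH ρ T hT) := by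
      apply lift _ h7
      intro x a y b z c w e h1 h2
      apply AddMonoidHom.ext
      intro v
      apply Subtype.ext
      show N ρ x a (N ρ y b (N ρ z c (N ρ w e (v : M)))) = 0
      have h3 := hk z c w e h2 v v.2 1 x a y b h1
      rw [map_one] at h3
      exact h3
    apply hlt.not_ge
    intro v hv g x a y b ⟨h1, h2, h3, h4, h5, h6⟩
    have h7 := D.dj x a y b h1 h2 h3 h4 h5 h6
    have h8 := congrArg (fun φ : AddMonoid.End T => ((φ ⟨ρ g v, hT g v hv⟩ : T) : M)) h7
    exact h8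
  constructor
  intro x a y b h1 h2 h3 h4 h5 h6
  apply AddMonoidHom.ext
  intro v
  have hv : v ∈ S := by rw [htop]; trivial
  have h7 := hv 1 x a y b ⟨h1, h2, h3, h4, h5, h6⟩
  rw [map_one] at h7
  exact h7

/-- the descending case -/
theorem desc (h7 : 7 ≤ Fintype.card α) (ρ : MulAut (FreeGroup α) →* AddMonoid.End M)
    (H : ∀ T : AddSubgroup M, (∀ g, ∀ v ∈ T, ρ g v ∈ T) → T ≠ ⊥ →
      ∃ S : AddSubgroup M, (∀ g, ∀ v ∈ S, ρ g v ∈ S) ∧ S < T ∧ Kl ρ S T) : DRel ρ := by
  let X : Set M := {v | ∃ g x a y b w, Dj x a y b ∧ v = ρ g (N ρ x a (N ρ y b w))}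
  let T : AddSubgroup M := AddSubgroup.closure X
  have hT : ∀ g, ∀ v ∈ T, ρ g v ∈ T := by
    intro g v hv
    induction hv using AddSubgroup.closure_induction with
    | mem v hv =>
      obtain ⟨g', x, a, y, b, w, h, rfl⟩ := hv
      refine AddSubgroup.subset_closure ⟨g * g', x, a, y, b, w, h, ?_⟩
      rw [map_mul]
      rfl
    | zero => rw [map_zero]; exact T.zero_mem
    | add v w _ _ h1 h2 => rw [map_add]; exact T.add_mem h1 h2
    | neg v _ h1 => rw [map_neg]; exact T.neg_mem h1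
  have hmem : ∀ x a y b : Lt α, Dj x a y b → ∀ w, N ρ x a (N ρ y b w) ∈ T := by
    intro x a y b h w
    refine AddSubgroup.subset_closure ⟨1, x, a, y, b, w, h, ?_⟩
    rw [map_one]
    rfl
  have hbot : T = ⊥ := by
    by_contra hne
    obtain ⟨S, hS, hlt, hk⟩ := H T hT hne
    have D : DRel (quoH ρ S hS) := by
      apply lift _ h7
      intro x a y b z c w e h1 h2
      apply AddMonoidHom.ext
      intro v
      obtain ⟨v, rfl⟩ := QuotientAddGroup.mk_surjective v
      show (QuotientAddGroup.mk (N ρ x a (N ρ y b (N ρ z c (N ρ w e v)))) : M ⧸ S) = 0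
      rw [QuotientAddGroup.eq_zero_iff]
      exact hk x a y b h1 _ (hmem z c w e h2 v)
    apply hlt.not_ge
    refine (AddSubgroup.closure_le _).2 ?_
    rintro _ ⟨g, x, a, y, b, w, ⟨h1, h2, h3, h4, h5, h6⟩, rfl⟩
    apply hS
    have h7 := D.dj x a y b h1 h2 h3 h4 h5 h6
    have h8 := congrArg (fun φ : AddMonoid.End (M ⧸ S) => φ (QuotientAddGroup.mk w)) h7
    exact (QuotientAddGroup.eq_zero_iff _).1 h8
  constructor
  intro x a y b h1 h2 h3 h4 h5 h6
  apply AddMonoidHom.ext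
  intro v
  have hv := hmem x a y b ⟨h1, h2, h3, h4, h5, h6⟩ v
  rw [hbot, AddSubgroup.mem_bot] at hv
  exact hv

/-- finite chains -/
theorem chn (h7 : 7 ≤ Fintype.card α) (ρ : MulAut (FreeGroup α) →* AddMonoid.End M) (r : ℕ)
    (c : ℕ → AddSubgroup M) (h0 : c 0 = ⊥) (hr : c r = ⊤)
    (hc : ∀ i ≤ r, ∀ g, ∀ v ∈ c i, ρ g v ∈ c i) (hk : ∀ i < r, Kl ρ (c i) (c (i + 1))) :
    DRel ρ := by
  apply asc h7
  intro S hS hne
  classical
  have hex : ∃ i, ¬ c i ≤ S := ⟨r, fun h => hne (by rw [hr] at h; exact top_le_iff.1 h)⟩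
  have hle : Nat.find hex ≤ r := Nat.find_le (n := r) (fun h => hne (by
    rw [hr] at h; exact top_le_iff.1 h))
  have hsp := Nat.find_spec hex
  obtain ⟨i, hi⟩ : ∃ i, Nat.find hex = i + 1 := by
    refine Nat.exists_eq_succ_of_ne_zero fun h => hsp ?_
    rw [h, h0]
    exact bot_le
  rw [hi] at hsp hle
  have hi1 : c i ≤ S := by
    by_contra h
    have := Nat.find_min' hex h
    omega
  refine ⟨S ⊔ c (i + 1), ?_, ?_, ?_⟩
  · intro g v hv
    rw [AddSubgroup.mem_sup] at hv ⊢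
    obtain ⟨s, hs, t, ht, rfl⟩ := hv
    exact ⟨_, hS g s hs, _, hc _ hle g t ht, (map_add _ _ _).symm⟩
  · rw [left_lt_sup]
    exact hsp
  · intro x a y b h v hv
    rw [AddSubgroup.mem_sup] at hv
    obtain ⟨s, hs, t, ht, rfl⟩ := hv
    rw [map_add, map_add]
    exact S.add_mem (N_mem ρ hS _ _ (N_mem ρ hS _ _ hs)) (hi1 (hk i hle x a y b h t ht))

end act

end Pool.Agent.U181.SC
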